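import Pool.Agent.Lib.helper5.Krho

open Set Topology
open scoped BoundedContinuousFunction

namespace Pool.Agent.Results.MP_25ed80_an.NoEmbedding

/-- The ordinal interval `[0, ω₁]` with the order topology. -/
abbrev Om := Iic (Ordinal.omega.{0} 1)

/-- Every nonempty subset has an isolated point. -/
def Scattered (K : Type) [TopologicalSpace K] : Prop :=
  ∀ s : Set K, s.Nonempty → ∃ x ∈ s, ∃ U : Set K, IsOpen U ∧ U ∩ s = {x}

/-- `K` embeds in some `ℝ^Γ` with the countably supported points dense. -/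
def Valdivia (K : Type) [TopologicalSpace K] : Prop :=
  ∃ (Γ : Type) (h : K → Γ → ℝ), IsEmbedding h ∧ Dense {x | {γ | h x γ ≠ 0}.Countable}

/-- `C([0, ω₁])` is isomorphic to a subspace of `C(K)`. -/
def Embeds (K : Type) [TopologicalSpace K] : Prop :=
  ∃ (T : (Om →ᵇ ℝ) →L[ℝ] (K →ᵇ ℝ)) (d : ℝ), 0 < d ∧ ∀ g, d * ‖g‖ ≤ ‖T g‖

/-- There is a linear extension operator from `C(L)` to `C(K)`. -/
def HasExtension {K : Type} [TopologicalSpace K] (L : Set K) : Prop :=
  ∃ E : (L →ᵇ ℝ) →L[ℝ] (K →ᵇ ℝ), ∀ f (x : L), E f x = f x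

/-- A scattered Valdivia compact space containing `[0, ω₁]` such that `C([0, ω₁])` does not embed
into `C(K)` and no copy of `[0, ω₁]` in `K` has a linear extension operator. -/
theorem result : ∃ (K : Type) (_ : TopologicalSpace K), CompactSpace K ∧ T2Space K ∧
    Scattered K ∧ Valdivia K ∧ (∃ L : Set K, Nonempty (L ≃ₜ Om)) ∧ ¬ Embeds K ∧
    ∀ L : Set K, Nonempty (L ≃ₜ Om) → ¬ HasExtension L := by
  obtain ⟨Γ, K, _, h1, h2, h3, ⟨e, he⟩, -⟩ := H5M.main
  have k : ¬ Embeds K := fun ⟨T, d, d0, h⟩ =>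
    (h3.of_equiv (ContinuousMap.linearIsometryBoundedOfCompact K ℝ ℝ)).noemb T d0 h
  refine ⟨K, _, inferInstance, inferInstance, h1, ⟨Γ, fun x γ => if x.1 γ then 1 else 0,
    (Continuous.isClosedEmbedding (continuous_pi fun γ => (continuous_of_discreteTopology
      (f := fun b : Bool => if b then (1 : ℝ) else 0)).comp ((continuous_apply γ).comp
        continuous_subtype_val)) fun x y h => Subtype.ext (funext fun γ => ?_)).isEmbedding,
    h2.mono fun x h => h.countable.mono fun γ => by simp⟩, ⟨_, ⟨he.toHomeomorph.symm⟩⟩, k,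
    fun L ⟨i⟩ ⟨E, hE⟩ => k ⟨E ∘L BoundedContinuousFunction.compContinuousCLM ℝ ℝ ⟨i, i.continuous⟩,
      1, one_pos, fun g => (one_mul _).trans_le ((BoundedContinuousFunction.norm_le
        (norm_nonneg _)).2 fun x => le_trans ?_ (BoundedContinuousFunction.norm_coe_le_norm _
          (i.symm x).1))⟩⟩
  · have := congrFun h γ
    cases e : x.1 γ <;> cases e' : y.1 γ <;> simp_all
  · simp [hE]

end Pool.Agent.Results.MP_25ed80_an.NoEmbedding
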